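import Pool.Agent.KS6_51.Dist.Crit

/-!
# Construction of the class with a strict inequality, for `n ≥ (s + 1) (r + 1) + 2`
-/

set_option autoImplicit false

namespace Pool.Agent.KS6_51.Dist

open Finset Pool.Agent.R153.GP Pool.Agent.Results.MP_47869a_co.UniformDistant

/-- a permutation with prescribed relative order of its entries -/
lemma exists_perm {n : ℕ} {α : Type} [LinearOrder α] (f : Fin n → α) (hf : Function.Injective f) :
    ∃ π : Equiv.Perm (Fin n), ∀ x y, π x < π y ↔ f x < f y := by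
  refine ⟨(Tuple.sort f).symm, fun x y => ?_⟩
  have hmono : StrictMono (f ∘ Tuple.sort f) :=
    (Tuple.monotone_sort f).strictMono_of_injective (hf.comp (Tuple.sort f).injective)
  rw [← hmono.lt_iff_lt]
  simp

/-- the level of a position -/
def lvl (s r x : ℕ) : ℕ :=
  if x = 0 then 5 else if x = 1 then 6 else if x ≤ r then 8 else if x = r + 1 then 3
  else if x = r + 2 then 2 else if (s + 1) * (r + 1) + 2 ≤ x then 0
  else if x % (r + 1) = 0 then 7 else if x % (r + 1) = 1 then 4 else 1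

/-- the order within a level -/
def sb (n s r : ℕ) (σ' : ℕ → ℕ) (x : ℕ) : ℕ :=
  if (s + 1) * (r + 1) + 2 ≤ x then n - x else σ' (x / (r + 1) - 2)

lemma lvl_tail {s r x : ℕ} (hs : 1 ≤ s) (hr : 1 ≤ r) (hx : (s + 1) * (r + 1) + 2 ≤ x) :
    lvl s r x = 0 := by
  have h1 : 2 * (r + 1) ≤ (s + 1) * (r + 1) := Nat.mul_le_mul_right _ (by omega)
  unfold lvl
  rw [if_neg (by omega), if_neg (by omega), if_neg (by omega), if_neg (by omega), if_neg (by omega),
    if_pos hx]

lemma lvl_first {s r j : ℕ} (hr : 1 ≤ r) (hj : j < s) : lvl s r ((j + 2) * (r + 1)) = 7 := by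
  have h1 : 2 * (r + 1) ≤ (j + 2) * (r + 1) := Nat.mul_le_mul_right _ (by omega)
  have h2 : (j + 2) * (r + 1) ≤ (s + 1) * (r + 1) := Nat.mul_le_mul_right _ (by omega)
  unfold lvl
  rw [if_neg (by omega), if_neg (by omega), if_neg (by omega), if_neg (by omega), if_neg (by omega),
    if_neg (by omega), if_pos (Nat.mul_mod_left _ _)]

lemma lvl_second {s r j : ℕ} (hr : 1 ≤ r) (hj : j < s) : lvl s r ((j + 2) * (r + 1) + 1) = 4 := by
  have h1 : 2 * (r + 1) ≤ (j + 2) * (r + 1) := Nat.mul_le_mul_right _ (by omega)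
  have h2 : (j + 2) * (r + 1) ≤ (s + 1) * (r + 1) := Nat.mul_le_mul_right _ (by omega)
  have h3 : ((j + 2) * (r + 1) + 1) % (r + 1) = 1 := by
    rw [mul_comm, Nat.mul_add_mod, Nat.mod_eq_of_lt (by omega)]
  unfold lvl
  rw [if_neg (by omega), if_neg (by omega), if_neg (by omega), if_neg (by omega), if_neg (by omega),
    if_neg (by omega), if_neg (by omega), if_pos h3]

lemma gap {n s r : ℕ} {a : Fin s → Fin n} (ha : Q r a) (hs : 0 < s) :
    ∀ t (ht : t < s), (a ⟨0, hs⟩ : ℕ) + t * (r + 1) ≤ a ⟨t, ht⟩ := by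
  intro t
  induction t with
  | zero => intro _; simp
  | succ t ih =>
    intro ht
    have h1 := ih (by omega)
    have h2 := ha ⟨t, by omega⟩ ⟨t + 1, ht⟩ rfl
    have h3 : (t + 1) * (r + 1) = t * (r + 1) + (r + 1) := by ring
    omega

theorem exists_four {n s r : ℕ} (hs : 1 ≤ s) (hr : 1 ≤ r) (hn : (s + 1) * (r + 1) + 2 ≤ n)
    (σ : Fin s → ℕ) (hσ : Function.Injective σ) :
    ∃ (π₀ : Equiv.Perm (Fin n)) (a b c d : Fin n), Four σ (Q r) r π₀ a b c d := by
  obtain ⟨s', rfl⟩ : ∃ s', s = s' + 1 := ⟨s - 1, by omega⟩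
  have hK : (s' + 1 + 1) * (r + 1) = s' * (r + 1) + 2 * (r + 1) := by ring
  let σ' : ℕ → ℕ := fun j => if h : j < s' + 1 then σ ⟨j, h⟩ else 0
  have hσ' : ∀ j : Fin (s' + 1), σ' j = σ j := by
    intro j
    exact dif_pos j.2
  let f : Fin n → ℕ ×ₗ (ℕ ×ₗ ℕ) := fun x =>
    toLex (lvl (s' + 1) r x, toLex (sb n (s' + 1) r σ' x, (x : ℕ)))
  have hf : Function.Injective f := by
    intro x y h
    have h1 := congrArg ofLex h
    have h2 := congrArg Prod.snd h1
    have h3 := congrArg ofLex h2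
    have h4 := congrArg Prod.snd h3
    exact Fin.ext h4
  obtain ⟨π₀, hπ⟩ := exists_perm f hf
  have lt_of_lvl : ∀ x y : Fin n, lvl (s' + 1) r x < lvl (s' + 1) r y → π₀ x < π₀ y := by
    intro x y h
    rw [hπ, Prod.Lex.toLex_lt_toLex]
    exact Or.inl h
  have lvl_le : ∀ x y : Fin n, π₀ x < π₀ y → lvl (s' + 1) r x ≤ lvl (s' + 1) r y := by
    intro x y h
    by_contra hcon
    exact lt_asymm h (lt_of_lvl y x (not_le.1 hcon))
  -- the four positions
  have hn4 : 2 * (r + 1) + 2 ≤ n := by omega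
  let a : Fin n := ⟨0, by omega⟩
  let b : Fin n := ⟨1, by omega⟩
  let c : Fin n := ⟨r + 1, by omega⟩
  let d : Fin n := ⟨r + 2, by omega⟩
  have la : lvl (s' + 1) r (a : ℕ) = 5 := by simp [a, lvl]
  have lb : lvl (s' + 1) r (b : ℕ) = 6 := by simp [b, lvl]
  have lc : lvl (s' + 1) r (c : ℕ) = 3 := by
    have h1 : r + 1 ≠ 1 := by omega
    simp [c, lvl, h1]
    omega
  have ld : lvl (s' + 1) r (d : ℕ) = 2 := by
    simp [d, lvl]
  -- copies of the pattern
  have hP1 : ∀ j : Fin (s' + 1), (j + 2) * (r + 1) < n := by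
    intro j
    have := j.2
    have h2 : (j + 2) * (r + 1) ≤ (s' + 1 + 1) * (r + 1) := Nat.mul_le_mul_right _ (by omega)
    omega
  have hP2 : ∀ j : Fin (s' + 1), (j + 2) * (r + 1) + 1 < n := by
    intro j
    have := j.2
    have h2 : (j + 2) * (r + 1) ≤ (s' + 1 + 1) * (r + 1) := Nat.mul_le_mul_right _ (by omega)
    omega
  have hsb1 : ∀ j : Fin (s' + 1), sb n (s' + 1) r σ' ((j + 2) * (r + 1)) = σ j := by
    intro j
    have := j.2
    have h2 : (j + 2) * (r + 1) ≤ (s' + 1 + 1) * (r + 1) := Nat.mul_le_mul_right _ (by omega)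
    unfold sb
    rw [if_neg (by omega), Nat.mul_div_cancel _ (by omega), Nat.add_sub_cancel]
    exact hσ' j
  have hsb2 : ∀ j : Fin (s' + 1), sb n (s' + 1) r σ' ((j + 2) * (r + 1) + 1) = σ j := by
    intro j
    have := j.2
    have h2 : (j + 2) * (r + 1) ≤ (s' + 1 + 1) * (r + 1) := Nat.mul_le_mul_right _ (by omega)
    have h3 : ((j + 2) * (r + 1) + 1) / (r + 1) = j + 2 := by
      rw [mul_comm, Nat.mul_add_div (by omega), Nat.div_eq_of_lt (by omega), add_zero]
    unfold sb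
    rw [if_neg (by omega), h3, Nat.add_sub_cancel]
    exact hσ' j
  refine ⟨π₀, a, b, c, d, ?_, ?_, ?_, ?_, ?_, ?_, ?_, ?_, ?_, ?_, ?_, ?_, ?_, ?_, ?_⟩
  · show 0 < 1; omega
  · show 1 < r + 1; omega
  · show r + 1 < r + 2; omega
  · show 1 ≤ 0 + r; omega
  · show r + 1 ≤ 1 + r; omega
  · show r + 2 ≤ r + 1 + r; omega
  · show 0 + r < r + 1; omega
  · show 1 + r < r + 2; omega
  · apply lt_of_lvl; rw [lc, ld]; omega
  · apply lt_of_lvl; rw [lc, la]; omega
  · apply lt_of_lvl; rw [la, lb]; omega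
  · -- F1
    refine ⟨fun j => ⟨(j + 2) * (r + 1), hP1 j⟩, fun j => ?_, fun j j' hj => ?_, fun j => ?_,
      fun j j' => ?_⟩
    · show r + 1 + r < (j + 2) * (r + 1)
      have h1 : 2 * (r + 1) ≤ (j + 2) * (r + 1) := Nat.mul_le_mul_right _ (by omega)
      omega
    · show (j + 2) * (r + 1) + (r + 1) ≤ (j' + 2) * (r + 1)
      rw [hj]
      have : ((j : ℕ) + 1 + 2) * (r + 1) = (j + 2) * (r + 1) + (r + 1) := by ring
      omega
    · apply lt_of_lvl
      rw [lb]
      show 6 < lvl (s' + 1) r ((j + 2) * (r + 1))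
      rw [lvl_first hr j.2]
      omega
    · rw [hπ, Prod.Lex.toLex_lt_toLex]
      show lvl (s' + 1) r ((j + 2) * (r + 1)) < lvl (s' + 1) r ((j' + 2) * (r + 1)) ∨
        lvl (s' + 1) r ((j + 2) * (r + 1)) = lvl (s' + 1) r ((j' + 2) * (r + 1)) ∧
        toLex (sb n (s' + 1) r σ' ((j + 2) * (r + 1)), ((j + 2) * (r + 1) : ℕ)) <
          toLex (sb n (s' + 1) r σ' ((j' + 2) * (r + 1)), ((j' + 2) * (r + 1) : ℕ)) ↔ _
      rw [lvl_first hr j.2, lvl_first hr j'.2, Prod.Lex.toLex_lt_toLex]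
      simp only
      rw [hsb1, hsb1]
      constructor
      · rintro (h | ⟨-, h | ⟨h, h'⟩⟩)
        · omega
        · exact h
        · rw [hσ h] at h'
          omega
      · intro h
        exact Or.inr ⟨trivial, Or.inl h⟩
  · -- F2
    refine ⟨fun j => ⟨(j + 2) * (r + 1) + 1, hP2 j⟩, fun j => ?_, fun j j' hj => ?_, fun j => ?_,
      fun j j' => ?_⟩
    · show r + 2 + r < (j + 2) * (r + 1) + 1
      have h1 : 2 * (r + 1) ≤ (j + 2) * (r + 1) := Nat.mul_le_mul_right _ (by omega)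
      omega
    · show (j + 2) * (r + 1) + 1 + (r + 1) ≤ (j' + 2) * (r + 1) + 1
      rw [hj]
      have : ((j : ℕ) + 1 + 2) * (r + 1) = (j + 2) * (r + 1) + (r + 1) := by ring
      omega
    · apply lt_of_lvl
      rw [lc]
      show 3 < lvl (s' + 1) r ((j + 2) * (r + 1) + 1)
      rw [lvl_second hr j.2]
      omega
    · rw [hπ, Prod.Lex.toLex_lt_toLex]
      show lvl (s' + 1) r ((j + 2) * (r + 1) + 1) < lvl (s' + 1) r ((j' + 2) * (r + 1) + 1) ∨
        lvl (s' + 1) r ((j + 2) * (r + 1) + 1) = lvl (s' + 1) r ((j' + 2) * (r + 1) + 1) ∧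
        toLex (sb n (s' + 1) r σ' ((j + 2) * (r + 1) + 1), ((j + 2) * (r + 1) + 1 : ℕ)) <
          toLex (sb n (s' + 1) r σ' ((j' + 2) * (r + 1) + 1), ((j' + 2) * (r + 1) + 1 : ℕ)) ↔ _
      rw [lvl_second hr j.2, lvl_second hr j'.2, Prod.Lex.toLex_lt_toLex]
      simp only
      rw [hsb2, hsb2]
      constructor
      · rintro (h | ⟨-, h | ⟨h, h'⟩⟩)
        · omega
        · exact h
        · rw [hσ h] at h'
          omega
      · intro h
        exact Or.inr ⟨trivial, Or.inl h⟩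
  · -- F3
    rintro ⟨e, e1, e2, e3, -⟩
    have h0 := e1 ⟨0, by omega⟩
    have h1 := gap e2 (by omega) s' (by omega)
    have h2 : (e ⟨s', by omega⟩ : ℕ) < (s' + 1 + 1) * (r + 1) + 2 := by
      by_contra hcon
      have h3 := lvl_le _ _ (e3 ⟨s', by omega⟩)
      rw [la, lvl_tail (by omega) hr (not_lt.1 hcon)] at h3
      omega
    have h4 : (d : ℕ) = r + 2 := rfl
    have h5 : (e ⟨0, by omega⟩ : ℕ) = (0 + 2) * (r + 1) + 1 := by omega
    have h6 := lvl_le _ _ (e3 ⟨0, by omega⟩)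
    rw [la, h5, lvl_second hr (by omega)] at h6
    omega
  · -- F4
    intro k ka kb kc kd
    rintro ⟨e, e1, e2, e3, -⟩
    have ka' : (k : ℕ) ≠ 0 := fun h => ka (Fin.ext h)
    have kb' : (k : ℕ) ≠ 1 := fun h => kb (Fin.ext h)
    have kc' : (k : ℕ) ≠ r + 1 := fun h => kc (Fin.ext h)
    have kd' : (k : ℕ) ≠ r + 2 := fun h => kd (Fin.ext h)
    have h0 := e1 ⟨0, by omega⟩
    by_cases hk : (s' + 1 + 1) * (r + 1) + 2 ≤ k
    · -- tail
      have h1 := e3 ⟨0, by omega⟩
      have h2 : (s' + 1 + 1) * (r + 1) + 2 ≤ e ⟨0, by omega⟩ := by omega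
      rw [hπ, Prod.Lex.toLex_lt_toLex] at h1
      rcases h1 with h1 | ⟨-, h1⟩
      · have h1' : lvl (s' + 1) r k < lvl (s' + 1) r (e ⟨0, by omega⟩) := h1
        rw [lvl_tail (by omega) hr hk, lvl_tail (by omega) hr h2] at h1'
        omega
      · have h3 : (sb n (s' + 1) r σ' k < sb n (s' + 1) r σ' (e ⟨0, by omega⟩)) ∨
            (sb n (s' + 1) r σ' k = sb n (s' + 1) r σ' (e ⟨0, by omega⟩) ∧
              (k : ℕ) < (e ⟨0, by omega⟩ : ℕ)) := (Prod.Lex.toLex_lt_toLex).1 h1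
        unfold sb at h3
        rw [if_pos hk, if_pos h2] at h3
        have h4 := k.2
        have h5 := (e ⟨0, by omega⟩).2
        omega
    · by_cases hk2 : (k : ℕ) ≤ r
      · have h1 : lvl (s' + 1) r k = 8 := by
          unfold lvl
          rw [if_neg ka', if_neg kb', if_pos hk2]
        have h2 := lvl_le _ _ (e3 ⟨0, by omega⟩)
        rw [h1] at h2
        have h3 : lvl (s' + 1) r (e ⟨0, by omega⟩) < 8 := by
          unfold lvl
          rw [if_neg (by omega : ¬ ((e ⟨0, by omega⟩ : Fin n) : ℕ) = 0),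
            if_neg (by omega : ¬ ((e ⟨0, by omega⟩ : Fin n) : ℕ) = 1),
            if_neg (by omega : ¬ ((e ⟨0, by omega⟩ : Fin n) : ℕ) ≤ r)]
          split_ifs <;> omega
        omega
      · have h1 : 1 ≤ lvl (s' + 1) r k := by
          unfold lvl
          rw [if_neg ka', if_neg kb', if_neg hk2, if_neg kc', if_neg kd', if_neg hk]
          split_ifs <;> omega
        have h2 := gap e2 (by omega) s' (by omega)
        have h3 : (e ⟨s', by omega⟩ : ℕ) < (s' + 1 + 1) * (r + 1) + 2 := by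
          by_contra hcon
          have h4 := lvl_le _ _ (e3 ⟨s', by omega⟩)
          rw [lvl_tail (by omega) hr (not_lt.1 hcon)] at h4
          omega
        omega

/-- **Strictness.** -/
theorem av_lt {n s r : ℕ} (hs : 1 ≤ s) (hr : 1 ≤ r) (hn : (s + 1) * (r + 1) + 2 ≤ n)
    (σ : Fin s → ℕ) (hσ : Function.Injective σ) :
    av n r (pre21 σ) < av n r (pre12 σ) := by
  obtain ⟨π₀, a, b, c, d, H⟩ := exists_four hs hr hn σ hσ
  have h := H.strict
  unfold av
  simp only [contains12, contains21]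
  exact h

end Pool.Agent.KS6_51.Dist
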