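import Pool.Agent.KS6_51.Dist.Inj

/-!
# Four columns with a strict inequality
-/

set_option autoImplicit false

namespace Pool.Agent.KS6_51.Dist

open Finset Pool.Agent.R153.GP

variable {n s : ℕ} {τ : Fin s → ℕ} {Q : (Fin s → Fin n) → Prop}

/-- four columns `a < b < c < d`, the far pairs being `(a,c)`, `(a,d)`, `(b,d)`; the dots `π₀ d < π₀ c <
π₀ a < π₀ b` are the only ones inside the board; the first three columns contain all four heights, the
last one the two lowest. -/
structure Four (τ : Fin s → ℕ) (Q : (Fin s → Fin n) → Prop) (r : ℕ) (π₀ : Equiv.Perm (Fin n))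
    (a b c d : Fin n) : Prop where
  ab : (a : ℕ) < b
  bc : (b : ℕ) < c
  cd : (c : ℕ) < d
  nab : (b : ℕ) ≤ a + r
  nbc : (c : ℕ) ≤ b + r
  ncd : (d : ℕ) ≤ c + r
  fac : (a : ℕ) + r < c
  fbd : (b : ℕ) + r < d
  vdc : π₀ d < π₀ c
  vca : π₀ c < π₀ a
  vab : π₀ a < π₀ b
  F1 : D τ Q r π₀ c (π₀ b)
  F2 : D τ Q r π₀ d (π₀ c)
  F3 : ¬ D τ Q r π₀ d (π₀ a)
  F4 : ∀ k, k ≠ a → k ≠ b → k ≠ c → k ≠ d → ¬ D τ Q r π₀ k (π₀ k)

variable {r : ℕ} {π₀ : Equiv.Perm (Fin n)} {a b c d : Fin n}

namespace Four

variable (H : Four τ Q r π₀ a b c d)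
include H

lemma low {k v : Fin n} (hk : k = a ∨ k = b ∨ k = c) (hv : v ≤ π₀ b) : D τ Q r π₀ k v := by
  refine D_down π₀ c (π₀ b) k v H.F1 ?_ hv
  have h1 := H.ab
  have h2 := H.bc
  rcases hk with rfl | rfl | rfl
  · rw [Fin.le_def]; omega
  · rw [Fin.le_def]; omega
  · exact le_rfl

lemma lowd {v : Fin n} (hv : v ≤ π₀ c) : D τ Q r π₀ d v :=
  D_down π₀ d (π₀ c) d v H.F2 le_rfl hv

lemma highd {v : Fin n} (hv : π₀ a ≤ v) : ¬ D τ Q r π₀ d v := fun h =>
  H.F3 (D_down π₀ d v d (π₀ a) h le_rfl hv)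

lemma zkey {z : Equiv.Perm (Fin n)}
    (hout : ∀ k, k ≠ a → k ≠ b → k ≠ c → k ≠ d → z k = π₀ k)
    (ha : z a ≤ π₀ b) (hb : z b ≤ π₀ b) (hc : z c ≤ π₀ b) (hd : z d ≤ π₀ c) :
    key τ Q r z = key τ Q r π₀ := by
  have v1 := H.vdc
  have v2 := H.vca
  have v3 := H.vab
  apply key_eq
  · intro k hk
    apply hout
    · rintro rfl; exact hk (H.low (Or.inl rfl) v3.le)
    · rintro rfl; exact hk (H.low (Or.inr (Or.inl rfl)) le_rfl)
    · rintro rfl; exact hk (H.low (Or.inr (Or.inr rfl)) (v2.trans v3).le)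
    · rintro rfl; exact hk (H.lowd v1.le)
  · intro k hk
    by_cases h1 : k = a
    · subst h1; exact H.low (Or.inl rfl) ha
    by_cases h2 : k = b
    · subst h2; exact H.low (Or.inr (Or.inl rfl)) hb
    by_cases h3 : k = c
    · subst h3; exact H.low (Or.inr (Or.inr rfl)) hc
    by_cases h4 : k = d
    · subst h4; exact H.lowd hd
    exact absurd hk (H.F4 k h1 h2 h3 h4)

lemma zV12 {z : Equiv.Perm (Fin n)} (hz : key τ Q r z = key τ Q r π₀) (h1 : z c < z a)
    (h2 : z d < z a) (h3 : z d < z b) : V12 τ Q r r z := by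
  intro x y hxy hlt hD
  have hy : y ∈ ins τ Q r z := mem_ins.2 hD
  have hx : x ∈ ins τ Q r z := by
    rw [mem_ins]
    refine D_down z y (z y) x (z x) hD ?_ hlt.le
    rw [Fin.le_def]
    omega
  rw [key_ins hz, mem_ins] at hx hy
  have hx' : x = a ∨ x = b ∨ x = c ∨ x = d := by
    by_contra hcon
    push Not at hcon
    exact H.F4 x hcon.1 hcon.2.1 hcon.2.2.1 hcon.2.2.2 hx
  have hy' : y = a ∨ y = b ∨ y = c ∨ y = d := by
    by_contra hcon
    push Not at hcon
    exact H.F4 y hcon.1 hcon.2.1 hcon.2.2.1 hcon.2.2.2 hy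
  have p1 := H.ab
  have p2 := H.bc
  have p3 := H.cd
  have p4 := H.nab
  have p5 := H.nbc
  have p6 := H.ncd
  rcases hx' with rfl | rfl | rfl | rfl <;> rcases hy' with rfl | rfl | rfl | rfl <;>
    first
    | exact lt_asymm hlt h1
    | exact lt_asymm hlt h2
    | exact lt_asymm hlt h3
    | (exfalso; omega)

lemma out {π : Equiv.Perm (Fin n)} (hπ : key τ Q r π = key τ Q r π₀) {k : Fin n}
    (h1 : k ≠ a) (h2 : k ≠ b) (h3 : k ≠ c) (h4 : k ≠ d) : π k = π₀ k :=
  key_out τ Q r hπ (H.F4 k h1 h2 h3 h4)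

lemma inside {π : Equiv.Perm (Fin n)} (hπ : key τ Q r π = key τ Q r π₀) {k : Fin n}
    (hk : k = a ∨ k = b ∨ k = c ∨ k = d) :
    π k = π₀ a ∨ π k = π₀ b ∨ π k = π₀ c ∨ π k = π₀ d := by
  by_contra hcon
  push Not at hcon
  obtain ⟨k', hk'⟩ := π₀.surjective (π k)
  have e1 : k' ≠ a := fun h => hcon.1 (by rw [← hk', h])
  have e2 : k' ≠ b := fun h => hcon.2.1 (by rw [← hk', h])
  have e3 : k' ≠ c := fun h => hcon.2.2.1 (by rw [← hk', h])
  have e4 : k' ≠ d := fun h => hcon.2.2.2 (by rw [← hk', h])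
  have h1 := H.out hπ e1 e2 e3 e4
  have h2 : k' = k := π.injective (h1.trans hk')
  subst h2
  rcases hk with h | h | h | h
  · exact e1 h
  · exact e2 h
  · exact e3 h
  · exact e4 h

lemma class21 {π : Equiv.Perm (Fin n)} (hπ : key τ Q r π = key τ Q r π₀) (hV : V21 τ Q r r π) :
    π d = π₀ c ∧ ((π a = π₀ d ∧ π b = π₀ b ∧ π c = π₀ a) ∨ (π a = π₀ d ∧ π b = π₀ a ∧ π c = π₀ b) ∨
      (π a = π₀ a ∧ π b = π₀ d ∧ π c = π₀ b)) := by
  have hD : D τ Q r π = D τ Q r π₀ := key_D τ Q r hπ
  have p1 := H.ab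
  have p2 := H.bc
  have p3 := H.cd
  have p7 := H.fac
  have p8 := H.fbd
  have v1 := H.vdc
  have v2 := H.vca
  have v3 := H.vab
  have iab : π a ≠ π b := fun h => by have := congrArg Fin.val (π.injective h); omega
  have iac : π a ≠ π c := fun h => by have := congrArg Fin.val (π.injective h); omega
  have iad : π a ≠ π d := fun h => by have := congrArg Fin.val (π.injective h); omega
  have ibc : π b ≠ π c := fun h => by have := congrArg Fin.val (π.injective h); omega
  have ibd : π b ≠ π d := fun h => by have := congrArg Fin.val (π.injective h); omega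
  have icd : π c ≠ π d := fun h => by have := congrArg Fin.val (π.injective h); omega
  have Ha := H.inside hπ (k := a) (Or.inl rfl)
  have Hb := H.inside hπ (k := b) (Or.inr (Or.inl rfl))
  have Hc := H.inside hπ (k := c) (Or.inr (Or.inr (Or.inl rfl)))
  have Hd := H.inside hπ (k := d) (Or.inr (Or.inr (Or.inr rfl)))
  -- the last column
  have hdin : D τ Q r π₀ d (π d) := by
    have h1 : d ∈ ins τ Q r π₀ := mem_ins.2 (H.lowd v1.le)
    rw [← key_ins hπ, mem_ins, hD] at h1
    exact h1
  have hd2 : π d = π₀ c ∨ π d = π₀ d := by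
    rcases Hd with h | h | h | h
    · exact absurd hdin (H.highd (by rw [h]))
    · exact absurd hdin (H.highd (by rw [h]; exact v3.le))
    · exact Or.inl h
    · exact Or.inr h
  -- `π a < π c`
  have hac : π a < π c := by
    by_contra hcon
    have h1 : π c < π a := lt_of_le_of_ne (not_lt.1 hcon) (Ne.symm iac)
    apply hV a c p7 h1
    rw [hD]
    apply H.low (Or.inr (Or.inr rfl))
    rcases Ha with h | h | h | h <;> rw [h]
    · exact v3.le
    · exact (v2.trans v3).le
    · exact (v1.trans (v2.trans v3)).le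
  -- `π d ≠ π₀ d`
  have hdne : π d ≠ π₀ d := by
    intro hd
    have ha : π a ≠ π₀ c := by
      intro h
      apply hV a d (by omega) (by rw [hd, h]; exact v1)
      rw [hD, h]
      exact H.F2
    have hb : π b ≠ π₀ c := by
      intro h
      apply hV b d (by omega) (by rw [hd, h]; exact v1)
      rw [hD, h]
      exact H.F2
    have ha' : π a = π₀ a ∨ π a = π₀ b := by
      rcases Ha with h | h | h | h
      · exact Or.inl h
      · exact Or.inr h
      · exact absurd h ha
      · exact absurd (h.trans hd.symm) iad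
    have hb' : π b = π₀ a ∨ π b = π₀ b := by
      rcases Hb with h | h | h | h
      · exact Or.inl h
      · exact Or.inr h
      · exact absurd h hb
      · exact absurd (h.trans hd.symm) ibd
    have hc' : π c = π₀ c := by
      rcases Hc with h | h | h | h
      · rcases ha' with h' | h'
        · exact absurd (h'.trans h.symm) iac
        · rcases hb' with h'' | h''
          · exact absurd (h''.trans h.symm) ibc
          · exact absurd (h'.trans h''.symm) iab
      · rcases ha' with h' | h'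
        · rcases hb' with h'' | h''
          · exact absurd (h'.trans h''.symm) iab
          · exact absurd (h''.trans h.symm) ibc
        · exact absurd (h'.trans h.symm) iac
      · exact h
      · exact absurd (h.trans hd.symm) icd
    rw [hc'] at hac
    rcases ha' with h | h <;> rw [h] at hac
    · exact lt_asymm hac v2
    · exact lt_asymm hac (v2.trans v3)
  have hd3 : π d = π₀ c := hd2.resolve_right hdne
  refine ⟨hd3, ?_⟩
  have Ha' : π a = π₀ a ∨ π a = π₀ b ∨ π a = π₀ d := by
    rcases Ha with h | h | h | h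
    · exact Or.inl h
    · exact Or.inr (Or.inl h)
    · exact absurd (h.trans hd3.symm) iad
    · exact Or.inr (Or.inr h)
  have Hb' : π b = π₀ a ∨ π b = π₀ b ∨ π b = π₀ d := by
    rcases Hb with h | h | h | h
    · exact Or.inl h
    · exact Or.inr (Or.inl h)
    · exact absurd (h.trans hd3.symm) ibd
    · exact Or.inr (Or.inr h)
  have Hc' : π c = π₀ a ∨ π c = π₀ b ∨ π c = π₀ d := by
    rcases Hc with h | h | h | h
    · exact Or.inl h
    · exact Or.inr (Or.inl h)
    · exact absurd (h.trans hd3.symm) icd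
    · exact Or.inr (Or.inr h)
  rcases Ha' with h | h | h
  · -- `π a = π₀ a`: then `π c = π₀ b`
    have hc : π c = π₀ b := by
      rcases Hc' with h' | h' | h'
      · exact absurd (h.trans h'.symm) iac
      · exact h'
      · rw [h, h'] at hac
        exact absurd hac (lt_asymm (v1.trans v2))
    have hb : π b = π₀ d := by
      rcases Hb' with h' | h' | h'
      · exact absurd (h.trans h'.symm) iab
      · exact absurd (h'.trans hc.symm) ibc
      · exact h'
    exact Or.inr (Or.inr ⟨h, hb, hc⟩)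
  · exfalso
    rw [h] at hac
    rcases Hc' with h' | h' | h' <;> rw [h'] at hac
    · exact lt_asymm hac v3
    · exact lt_irrefl _ hac
    · exact lt_asymm hac (v1.trans (v2.trans v3))
  · rcases Hb' with h' | h' | h'
    · right; left
      refine ⟨h, h', ?_⟩
      rcases Hc' with h'' | h'' | h''
      · exact absurd (h'.trans h''.symm) ibc
      · exact h''
      · exact absurd (h.trans h''.symm) iac
    · left
      refine ⟨h, h', ?_⟩
      rcases Hc' with h'' | h'' | h''
      · exact h''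
      · exact absurd (h'.trans h''.symm) ibc
      · exact absurd (h.trans h''.symm) iac
    · exact absurd (h.trans h'.symm) iab

/-- The inequality is strict. -/
theorem strict : Nat.card {π : Equiv.Perm (Fin n) // V21 τ Q r r π} <
    Nat.card {π : Equiv.Perm (Fin n) // V12 τ Q r r π} := by
  classical
  have p1 := H.ab
  have p2 := H.bc
  have p3 := H.cd
  have v1 := H.vdc
  have v2 := H.vca
  have v3 := H.vab
  have nab : a ≠ b := fun h => by rw [h] at p1; omega
  have nac : a ≠ c := fun h => by rw [h] at p1; omega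
  have nad : a ≠ d := fun h => by rw [h] at p1; omega
  have nbc : b ≠ c := fun h => by rw [h] at p2; omega
  have nbd : b ≠ d := fun h => by rw [h] at p2; omega
  have ncd : c ≠ d := fun h => by rw [h] at p3; omega
  -- the four permutations
  let z1 : Equiv.Perm (Fin n) := π₀ * Equiv.swap a b
  let z2 : Equiv.Perm (Fin n) := π₀ * (Equiv.swap a b * Equiv.swap b c)
  let z3 : Equiv.Perm (Fin n) := π₀ * Equiv.swap c d
  have z1a : z1 a = π₀ b := by simp [z1]
  have z1b : z1 b = π₀ a := by simp [z1]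
  have z1c : z1 c = π₀ c := by simp [z1, Equiv.swap_apply_of_ne_of_ne nac.symm nbc.symm]
  have z1d : z1 d = π₀ d := by simp [z1, Equiv.swap_apply_of_ne_of_ne nad.symm nbd.symm]
  have z2a : z2 a = π₀ b := by simp [z2, Equiv.swap_apply_of_ne_of_ne nab nac]
  have z2b : z2 b = π₀ c := by simp [z2, Equiv.swap_apply_of_ne_of_ne nac.symm nbc.symm]
  have z2c : z2 c = π₀ a := by simp [z2]
  have z2d : z2 d = π₀ d := by
    simp [z2, Equiv.swap_apply_of_ne_of_ne nad.symm nbd.symm,
      Equiv.swap_apply_of_ne_of_ne nbd.symm ncd.symm]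
  have z3a : z3 a = π₀ a := by simp [z3, Equiv.swap_apply_of_ne_of_ne nac nad]
  have z3b : z3 b = π₀ b := by simp [z3, Equiv.swap_apply_of_ne_of_ne nbc nbd]
  have z3c : z3 c = π₀ d := by simp [z3]
  have z3d : z3 d = π₀ c := by simp [z3]
  have o1 : ∀ k, k ≠ a → k ≠ b → k ≠ c → k ≠ d → z1 k = π₀ k := by
    intro k h1 h2 h3 h4
    simp [z1, Equiv.swap_apply_of_ne_of_ne h1 h2]
  have o2 : ∀ k, k ≠ a → k ≠ b → k ≠ c → k ≠ d → z2 k = π₀ k := by
    intro k h1 h2 h3 h4
    simp [z2, Equiv.swap_apply_of_ne_of_ne h1 h2, Equiv.swap_apply_of_ne_of_ne h2 h3]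
  have o3 : ∀ k, k ≠ a → k ≠ b → k ≠ c → k ≠ d → z3 k = π₀ k := by
    intro k h1 h2 h3 h4
    simp [z3, Equiv.swap_apply_of_ne_of_ne h3 h4]
  have k1 : key τ Q r z1 = key τ Q r π₀ := H.zkey o1 (by rw [z1a]) (by rw [z1b]; exact v3.le)
    (by rw [z1c]; exact (v2.trans v3).le) (by rw [z1d]; exact v1.le)
  have k2 : key τ Q r z2 = key τ Q r π₀ := H.zkey o2 (by rw [z2a])
    (by rw [z2b]; exact (v2.trans v3).le) (by rw [z2c]; exact v3.le) (by rw [z2d]; exact v1.le)
  have k3 : key τ Q r z3 = key τ Q r π₀ := H.zkey o3 (by rw [z3a]; exact v3.le)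
    (by rw [z3b]) (by rw [z3c]; exact (v1.trans (v2.trans v3)).le) (by rw [z3d])
  have w1 : V12 τ Q r r z1 := by
    refine H.zV12 k1 ?_ ?_ ?_
    · rw [z1a, z1c]; exact v2.trans v3
    · rw [z1a, z1d]; exact v1.trans (v2.trans v3)
    · rw [z1b, z1d]; exact v1.trans v2
  have w2 : V12 τ Q r r z2 := by
    refine H.zV12 k2 ?_ ?_ ?_
    · rw [z2a, z2c]; exact v3
    · rw [z2a, z2d]; exact v1.trans (v2.trans v3)
    · rw [z2b, z2d]; exact v1
  have w3 : V12 τ Q r r z3 := by
    refine H.zV12 k3 ?_ ?_ ?_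
    · rw [z3a, z3c]; exact v1.trans v2
    · rw [z3a, z3d]; exact v2
    · rw [z3b, z3d]; exact v2.trans v3
  refine card_lt (N := 4) r π₀ ![π₀, z1, z2, z3] ?_ ?_ ?_
    ({(π₀ d, π₀ b, π₀ a), (π₀ d, π₀ a, π₀ b), (π₀ a, π₀ d, π₀ b)} : Finset (Fin n × Fin n × Fin n))
    (lt_of_le_of_lt card_le_three (by norm_num)) (fun π => (π a, π b, π c)) ?_ ?_
  · -- injective
    have e01 : π₀ ≠ z1 := fun h => by
      have := congrArg (fun z : Equiv.Perm (Fin n) => z a) h
      simp only [z1a] at this
      exact v3.ne this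
    have e02 : π₀ ≠ z2 := fun h => by
      have := congrArg (fun z : Equiv.Perm (Fin n) => z a) h
      simp only [z2a] at this
      exact v3.ne this
    have e03 : π₀ ≠ z3 := fun h => by
      have := congrArg (fun z : Equiv.Perm (Fin n) => z c) h
      simp only [z3c] at this
      exact v1.ne this.symm
    have e12 : z1 ≠ z2 := fun h => by
      have := congrArg (fun z : Equiv.Perm (Fin n) => z b) h
      simp only [z1b, z2b] at this
      exact v2.ne this.symm
    have e13 : z1 ≠ z3 := fun h => by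
      have := congrArg (fun z : Equiv.Perm (Fin n) => z a) h
      simp only [z1a, z3a] at this
      exact v3.ne this.symm
    have e23 : z2 ≠ z3 := fun h => by
      have := congrArg (fun z : Equiv.Perm (Fin n) => z a) h
      simp only [z2a, z3a] at this
      exact v3.ne this.symm
    intro i j hij
    fin_cases i <;> fin_cases j <;> first
      | rfl
      | exact absurd hij e01
      | exact absurd hij e02
      | exact absurd hij e03
      | exact absurd hij e12
      | exact absurd hij e13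
      | exact absurd hij e23
      | exact absurd hij.symm e01
      | exact absurd hij.symm e02
      | exact absurd hij.symm e03
      | exact absurd hij.symm e12
      | exact absurd hij.symm e13
      | exact absurd hij.symm e23
  · intro i
    fin_cases i
    · rfl
    · exact k1
    · exact k2
    · exact k3
  · intro i
    fin_cases i
    · exact H.zV12 rfl v2 (v1.trans v2) (v1.trans (v2.trans v3))
    · exact w1
    · exact w2
    · exact w3
  · intro π hV hπ
    obtain ⟨-, h | h | h⟩ := H.class21 hπ hV <;> simp [h.1, h.2.1, h.2.2]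
  · intro π π' hV hπ hV' hπ' he
    simp only [Prod.mk.injEq] at he
    apply Equiv.ext
    intro k
    by_cases h1 : k = a
    · rw [h1]; exact he.1
    by_cases h2 : k = b
    · rw [h2]; exact he.2.1
    by_cases h3 : k = c
    · rw [h3]; exact he.2.2
    by_cases h4 : k = d
    · rw [h4, (H.class21 hπ hV).1, (H.class21 hπ' hV').1]
    rw [H.out hπ h1 h2 h3 h4, H.out hπ' h1 h2 h3 h4]

end Four

end Pool.Agent.KS6_51.Dist
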