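import Pool.Graph.R_seed8.Results.MP_47869a_co.UniformDistant

/-!
# The key-preserving injection and a criterion for the strict inequality
-/

set_option autoImplicit false

namespace Pool.Agent.KS6_51.Dist

open Finset Pool.Agent.R153.GP

variable {n s : ℕ} {τ : Fin s → ℕ} {Q : (Fin s → Fin n) → Prop} {g : ℕ}

/-- The injection of the library module, with the information that it preserves the class. -/
theorem exists_injection_key (r : ℕ) :
    ∃ Φ : Equiv.Perm (Fin n) → Equiv.Perm (Fin n), (∀ π, V21 τ Q g r π → V12 τ Q g r (Φ π)) ∧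
      (∀ π π', V21 τ Q g r π → V21 τ Q g r π' → Φ π = Φ π' → π = π') ∧
      ∀ π, V21 τ Q g r π → key τ Q g (Φ π) = key τ Q g π := by
  classical
  have hex : ∀ (B : Fin n → Fin n → Prop) (X : Finset (Fin n)) (p0 : Equiv.Perm (Fin n)),
      ∃ φ : Equiv.Perm (Fin n) → Equiv.Perm (Fin n), Down B →
      (∀ p, A21 B r X p0 p → A12 B r X p0 (φ p)) ∧
      ∀ p q, A21 B r X p0 p → A21 B r X p0 q → φ p = φ q → p = q := by
    intro B X p0
    by_cases hB : Down B
    · obtain ⟨φ, h1, h2⟩ := main_inj (r := r) hB X.card X rfl p0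
      exact ⟨φ, fun _ => ⟨h1, h2⟩⟩
    · exact ⟨id, fun h => absurd h hB⟩
  choose φ hφ using hex
  set P : Equiv.Perm (Fin n) → Equiv.Perm (Fin n) :=
    fun π => Function.invFun (key τ Q g) (key τ Q g π) with hP
  have hkP : ∀ π, key τ Q g (P π) = key τ Q g π := fun π =>
    Function.invFun_eq (f := key τ Q g) ⟨π, rfl⟩
  have hin : ∀ π, V21 τ Q g r π → A21 (D τ Q g π) r (ins τ Q g π) (P π) π := by
    intro π h
    refine ⟨⟨fun x hx => ?_, fun x hx => mem_ins.mp hx⟩, fun x _ y _ hxy hlt => h x y hxy hlt⟩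
    rw [mem_ins] at hx
    exact (key_out τ Q g (hkP π) hx).symm
  set Φ : Equiv.Perm (Fin n) → Equiv.Perm (Fin n) :=
    fun π => φ (D τ Q g π) (ins τ Q g π) (P π) π with hΦ
  have hA : ∀ π, V21 τ Q g r π → A12 (D τ Q g π) r (ins τ Q g π) (P π) (Φ π) := by
    intro π h
    exact (hφ _ _ _ (D_down π)).1 π (hin π h)
  have hk : ∀ π, V21 τ Q g r π → key τ Q g (Φ π) = key τ Q g π := by
    intro π h
    have h1 := hA π h
    apply key_eq
    · intro k hk
      have hk' : k ∉ ins τ Q g π := fun h' => hk (mem_ins.mp h')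
      rw [h1.1.1 k hk']
      exact key_out τ Q g (hkP π) hk
    · intro k hk
      exact h1.1.2 k (mem_ins.mpr hk)
  refine ⟨Φ, ?_, ?_, hk⟩
  · intro π h x y hxy hlt hD
    have h1 := hA π h
    rw [key_D τ Q g (hk π h)] at hD
    have hy : y ∈ ins τ Q g (Φ π) := by
      rw [mem_ins, key_D τ Q g (hk π h)]
      exact hD
    have hx : x ∈ ins τ Q g (Φ π) := by
      rw [mem_ins, key_D τ Q g (hk π h)]
      refine D_down π y (Φ π y) x (Φ π x) hD ?_ hlt.le
      rw [Fin.le_def]
      omega
    rw [key_ins (hk π h)] at hx hy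
    exact absurd (h1.2 x hx y hy hxy) (not_lt.mpr hlt.le)
  · intro π π' h h' e
    have hkk : key τ Q g π = key τ Q g π' := by rw [← hk π h, ← hk π' h', e]
    have e1 : D τ Q g π = D τ Q g π' := key_D τ Q g hkk
    have e2 : ins τ Q g π = ins τ Q g π' := key_ins hkk
    have e3 : P π = P π' := by
      simp only [hP, hkk]
    have h3 := hin π' h'
    rw [← e1, ← e2, ← e3] at h3
    apply (hφ _ _ _ (D_down π)).2 π π' (hin π h) h3
    have e4 : Φ π' = φ (D τ Q g π) (ins τ Q g π) (P π) π' := by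
      simp only [hΦ, e1, e2, e3]
    rw [← e4]
    exact e

/-- **Criterion.** If the class of `π₀` contains an injective family of `N` permutations without far
`12`, and fewer than `N` permutations without far `21` (a finite set `T` of size `< N` and an
injective map into it), then the inequality is strict. -/
theorem card_lt (r : ℕ) {N : ℕ} (π₀ : Equiv.Perm (Fin n)) (z : Fin N → Equiv.Perm (Fin n))
    (hz : Function.Injective z) (hzk : ∀ i, key τ Q g (z i) = key τ Q g π₀)
    (hzV : ∀ i, V12 τ Q g r (z i)) {α : Type} (T : Finset α) (hT : #T < N)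
    (ψ : Equiv.Perm (Fin n) → α)
    (h1 : ∀ π, V21 τ Q g r π → key τ Q g π = key τ Q g π₀ → ψ π ∈ T)
    (h2 : ∀ π π', V21 τ Q g r π → key τ Q g π = key τ Q g π₀ → V21 τ Q g r π' →
      key τ Q g π' = key τ Q g π₀ → ψ π = ψ π' → π = π') :
    Nat.card {π : Equiv.Perm (Fin n) // V21 τ Q g r π} <
      Nat.card {π : Equiv.Perm (Fin n) // V12 τ Q g r π} := by
  classical
  obtain ⟨Φ, p1, p2, p3⟩ := exists_injection_key (τ := τ) (Q := Q) (g := g) (n := n) r
  let F : {π : Equiv.Perm (Fin n) // V21 τ Q g r π} → {π : Equiv.Perm (Fin n) // V12 τ Q g r π} :=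
    fun π => ⟨Φ π.1, p1 π.1 π.2⟩
  have hF : Function.Injective F := fun a b h =>
    Subtype.ext (p2 a.1 b.1 a.2 b.2 (congrArg Subtype.val h))
  by_contra hcon
  push Not at hcon
  have hFb : Function.Bijective F := by
    rw [Fintype.bijective_iff_injective_and_card]
    refine ⟨hF, le_antisymm (Fintype.card_le_of_injective F hF) ?_⟩
    simpa [Nat.card_eq_fintype_card] using hcon
  choose w hw using fun i : Fin N => hFb.2 ⟨z i, hzV i⟩
  have hw1 : ∀ i, Φ (w i).1 = z i := fun i => congrArg Subtype.val (hw i)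
  have hwk : ∀ i, key τ Q g (w i).1 = key τ Q g π₀ := by
    intro i
    rw [← p3 _ (w i).2, hw1, hzk]
  have hinj : Function.Injective (fun i : Fin N => (⟨ψ (w i).1, h1 _ (w i).2 (hwk i)⟩ : T)) := by
    intro i j hij
    have h3 : ψ (w i).1 = ψ (w j).1 := congrArg Subtype.val hij
    have h4 := h2 _ _ (w i).2 (hwk i) (w j).2 (hwk j) h3
    apply hz
    rw [← hw1 i, ← hw1 j, h4]
  have := Fintype.card_le_of_injective _ hinj
  rw [Fintype.card_fin, Fintype.card_coe] at this
  omega

end Pool.Agent.KS6_51.Dist
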